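import Mathlib

set_option autoImplicit false

namespace Pool.Agent.Results.MP_bf8bcd_co.NoFieldSpreadSet

open Matrix

/-- `HasMinDist C d`: the least rank distance `rank (X - Y)` between two distinct elements of the
code `C` of `n × n` matrices over `K` is `d`. -/
def HasMinDist {K : Type} [Field K] {n : ℕ} (C : Set (Matrix (Fin n) (Fin n) K)) (d : ℕ) : Prop :=
  (∀ X ∈ C, ∀ Y ∈ C, X ≠ Y → d ≤ (X - Y).rank) ∧ ∃ X ∈ C, ∃ Y ∈ C, X ≠ Y ∧ (X - Y).rank = d

/-- `IsMRD C d`: the code `C ⊆ M_n(K)` has minimum distance `d` and attains the bound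
`|C| = |K| ^ (n * (n - d + 1))`. -/
def IsMRD {K : Type} [Field K] {n : ℕ} (C : Set (Matrix (Fin n) (Fin n) K)) (d : ℕ) : Prop :=
  HasMinDist C d ∧ Nat.card C = Nat.card K ^ (n * (n - d + 1))

/-- Equivalence of codes: `C' = {A X^σ B : X ∈ C}` or `C' = {A (X^σ)ᵀ B : X ∈ C}` for invertible
`A`, `B` and a field automorphism `σ` applied entrywise. -/
def CodeEquiv {K : Type} [Field K] {n : ℕ} (C C' : Set (Matrix (Fin n) (Fin n) K)) : Prop :=
  ∃ (A B : GL (Fin n) K) (σ : K ≃+* K),
    C' = {Z | ∃ X ∈ C, Z = (A : Matrix (Fin n) (Fin n) K) * X.map σ * (B : Matrix (Fin n) (Fin n) K)} ∨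
    C' = {Z | ∃ X ∈ C, Z = (A : Matrix (Fin n) (Fin n) K) * (X.map σ)ᵀ * (B : Matrix (Fin n) (Fin n) K)}

/-- The field spread set: the matrices of the multiplication maps `x ↦ a * x` of the degree `n`
extension field `L` of `K`, with respect to a `K`-basis `b` of `L`. -/
def fieldSpreadSet {K L : Type} [Field K] [Field L] [Algebra K L] {n : ℕ}
    (b : Module.Basis (Fin n) K L) : Set (Matrix (Fin n) (Fin n) K) :=
  Set.range (fun a : L => Algebra.leftMulMatrix b a)

section construction

variable {K : Type} [Field K]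

/-- The matrices `D(a)` of the semifield spread set dual to the code. -/
def D (φ : K →+* K) (c : K) (a : Fin 3 → K) : Matrix (Fin 3) (Fin 3) K :=
  !![a 0, a 1, a 2;
     c * φ (a 2), φ (a 0), φ (a 1);
     c * φ (φ (a 1)), c * φ (φ (a 2)), φ (φ (a 0))]

theorem D_det (φ : K →+* K) (c : K) (a : Fin 3 → K) :
    (D φ c a).det = a 0 * φ (a 0) * φ (φ (a 0))
      + c * (a 1 * φ (a 1) * φ (φ (a 1)) - (a 0 * φ (a 1) * φ (φ (a 2)) +
          φ (a 0) * φ (φ (a 1)) * a 2 + φ (φ (a 0)) * a 1 * φ (a 2)))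
      + c ^ 2 * (a 2 * φ (a 2) * φ (φ (a 2))) := by
  rw [Matrix.det_fin_three]
  simp [D]
  ring

theorem D_det_ne_zero (φ : K →+* K) (h3 : ∀ x, φ (φ (φ x)) = x) (c : K) (hc : φ c ≠ c)
    (a : Fin 3 → K) (ha : a ≠ 0) : (D φ c a).det ≠ 0 := by
  intro hdet
  rw [D_det] at hdet
  have hinj : Function.Injective φ := φ.injective
  set A := a 0 * φ (a 0) * φ (φ (a 0)) with hA
  set B := a 1 * φ (a 1) * φ (φ (a 1)) - (a 0 * φ (a 1) * φ (φ (a 2)) +
          φ (a 0) * φ (φ (a 1)) * a 2 + φ (φ (a 0)) * a 1 * φ (a 2)) with hB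
  set E := a 2 * φ (a 2) * φ (φ (a 2)) with hE
  have hφA : φ A = A := by
    rw [hA]; simp only [map_mul, h3]; ring
  have hφE : φ E = E := by
    rw [hE]; simp only [map_mul, h3]; ring
  have hφB : φ B = B := by
    rw [hB]; simp only [map_mul, map_sub, map_add, h3]; ring
  have e1 : A + φ c * B + φ c ^ 2 * E = 0 := by
    have := congrArg φ hdet
    simpa only [map_add, map_mul, map_pow, map_zero, hφA, hφB, hφE] using this
  have e2 : A + φ (φ c) * B + φ (φ c) ^ 2 * E = 0 := by
    have := congrArg φ e1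
    simpa only [map_add, map_mul, map_pow, map_zero, hφA, hφB, hφE] using this
  have hc1 : c - φ c ≠ 0 := sub_ne_zero.2 (Ne.symm hc)
  have hc2 : φ c - φ (φ c) ≠ 0 := by
    rw [sub_ne_zero]
    intro h
    exact hc (hinj h).symm
  have hc3 : c - φ (φ c) ≠ 0 := by
    rw [sub_ne_zero]
    intro h
    apply hc
    have : φ c = φ (φ (φ c)) := congrArg φ h
    rw [h3] at this
    exact this
  have f1 : B + (c + φ c) * E = 0 := by
    have : (c - φ c) * (B + (c + φ c) * E) = 0 := by linear_combination hdet - e1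
    exact (mul_eq_zero.1 this).resolve_left hc1
  have f2 : B + (c + φ (φ c)) * E = 0 := by
    have : (c - φ (φ c)) * (B + (c + φ (φ c)) * E) = 0 := by linear_combination hdet - e2
    exact (mul_eq_zero.1 this).resolve_left hc3
  have f3 : E = 0 := by
    have : (φ c - φ (φ c)) * E = 0 := by linear_combination f1 - f2
    exact (mul_eq_zero.1 this).resolve_left hc2
  have f4 : B = 0 := by rw [f3, mul_zero, add_zero] at f1; exact f1
  have f5 : A = 0 := by rw [f3, f4, mul_zero, mul_zero, add_zero, add_zero] at hdet; exact hdet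
  have hnorm : ∀ x : K, x * φ x * φ (φ x) = 0 → x = 0 := by
    intro x hx
    rcases mul_eq_zero.1 hx with h | h
    · rcases mul_eq_zero.1 h with h | h
      · exact h
      · exact (map_eq_zero φ).1 h
    · exact (map_eq_zero φ).1 ((map_eq_zero φ).1 h)
  have a0 : a 0 = 0 := hnorm _ f5
  have a2 : a 2 = 0 := hnorm _ f3
  have a1 : a 1 = 0 := by
    apply hnorm
    rw [hB, a0, a2] at f4
    simpa using f4
  apply ha
  funext i
  fin_cases i
  · exact a0
  · exact a1
  · exact a2

/-- The code. -/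
def code (φ : K →+* K) (c : K) : AddSubgroup (Matrix (Fin 3) (Fin 3) K) where
  carrier := {Y | Y 0 0 + φ (φ (Y 1 1)) + φ (Y 2 2) = 0 ∧
    Y 0 1 + φ (φ (Y 1 2)) + φ (c * Y 2 0) = 0 ∧
    Y 0 2 + φ (φ (c * Y 1 0)) + φ (c * Y 2 1) = 0}
  zero_mem' := by simp
  add_mem' := by
    rintro X Y ⟨h1, h2, h3⟩ ⟨g1, g2, g3⟩
    refine ⟨?_, ?_, ?_⟩
    · simp only [Matrix.add_apply, map_add]
      linear_combination h1 + g1
    · simp only [Matrix.add_apply, map_add, mul_add]
      linear_combination h2 + g2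
    · simp only [Matrix.add_apply, map_add, mul_add]
      linear_combination h3 + g3
  neg_mem' := by
    rintro X ⟨h1, h2, h3⟩
    refine ⟨?_, ?_, ?_⟩
    · simp only [Matrix.neg_apply, map_neg]
      linear_combination -h1
    · simp only [Matrix.neg_apply, map_neg, mul_neg]
      linear_combination -h2
    · simp only [Matrix.neg_apply, map_neg, mul_neg]
      linear_combination -h3

theorem mem_code {φ : K →+* K} {c : K} {Y : Matrix (Fin 3) (Fin 3) K} :
    Y ∈ code φ c ↔ Y 0 0 + φ (φ (Y 1 1)) + φ (Y 2 2) = 0 ∧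
    Y 0 1 + φ (φ (Y 1 2)) + φ (c * Y 2 0) = 0 ∧
    Y 0 2 + φ (φ (c * Y 1 0)) + φ (c * Y 2 1) = 0 := Iff.rfl

/-- The free entries of a codeword. -/
def codeEquiv (φ : K →+* K) (c : K) : code φ c ≃ (Fin 6 → K) where
  toFun Y := ![Y.1 1 0, Y.1 1 1, Y.1 1 2, Y.1 2 0, Y.1 2 1, Y.1 2 2]
  invFun f := ⟨!![-(φ (φ (f 1)) + φ (f 5)), -(φ (φ (f 2)) + φ (c * f 3)),
      -(φ (φ (c * f 0)) + φ (c * f 4)); f 0, f 1, f 2; f 3, f 4, f 5], by
    rw [mem_code]
    refine ⟨?_, ?_, ?_⟩
    · change -(φ (φ (f 1)) + φ (f 5)) + φ (φ (f 1)) + φ (f 5) = 0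
      ring
    · change -(φ (φ (f 2)) + φ (c * f 3)) + φ (φ (f 2)) + φ (c * f 3) = 0
      ring
    · change -(φ (φ (c * f 0)) + φ (c * f 4)) + φ (φ (c * f 0)) + φ (c * f 4) = 0
      ring⟩
  left_inv := by
    rintro ⟨Y, h1, h2, h3⟩
    apply Subtype.ext
    ext i j
    fin_cases i <;> fin_cases j
    · change -(φ (φ (Y 1 1)) + φ (Y 2 2)) = Y 0 0
      linear_combination -h1
    · change -(φ (φ (Y 1 2)) + φ (c * Y 2 0)) = Y 0 1
      linear_combination -h2
    · change -(φ (φ (c * Y 1 0)) + φ (c * Y 2 1)) = Y 0 2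
      linear_combination -h3
    all_goals rfl
  right_inv := by
    intro f
    funext i
    fin_cases i <;> simp

theorem card_code [Finite K] (φ : K →+* K) (c : K) : Nat.card (code φ c) = Nat.card K ^ 6 := by
  rw [Nat.card_congr (codeEquiv φ c), Nat.card_fun]
  simp

/-- no nonzero matrix of rank at most one lies in the code -/
theorem rank_ge_two [Finite K] (φ : K →+* K) (h3 : ∀ x, φ (φ (φ x)) = x) (c : K) (hc : φ c ≠ c)
    (htr : ∃ z : K, z + φ z + φ (φ z) ≠ 0)
    (Y : Matrix (Fin 3) (Fin 3) K) (hY : Y ∈ code φ c) (hY0 : Y ≠ 0) : 2 ≤ Y.rank := by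
  by_contra hlt
  have hr : Module.finrank K (LinearMap.range Y.mulVecLin) ≤ 1 := by
    have : Y.rank ≤ 1 := by omega
    exact this
  rw [finrank_le_one_iff] at hr
  obtain ⟨⟨x, hx⟩, hxs⟩ := hr
  have hcol : ∀ j, ∃ r : K, ∀ i, Y i j = x i * r := by
    intro j
    obtain ⟨r, hr⟩ := hxs ⟨Y.mulVecLin (Pi.single j 1), ⟨_, rfl⟩⟩
    refine ⟨r, fun i => ?_⟩
    have h1 := congrArg (fun w : LinearMap.range Y.mulVecLin => (w : Fin 3 → K) i) hr
    simp only [SetLike.mk_smul_mk, Pi.smul_apply, smul_eq_mul, Matrix.mulVecLin_apply,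
      Matrix.mulVec_single_one, Matrix.col_apply] at h1
    rw [← h1]; ring
  choose y hy using hcol
  have hyne : y ≠ 0 := by
    rintro rfl
    apply hY0
    ext i j
    rw [hy j i]; simp
  have hxne : x ≠ 0 := by
    rintro rfl
    apply hY0
    ext i j
    rw [hy j i]; simp
  -- the map `a ↦ D(a) y` is onto
  let g : (Fin 3 → K) →+ (Fin 3 → K) :=
    { toFun := fun a => (D φ c a).mulVec y
      map_zero' := by
        have : D φ c 0 = 0 := by
          ext i j; fin_cases i <;> fin_cases j <;> simp [D]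
        rw [this]; simp
      map_add' := by
        intro a b
        have : D φ c (a + b) = D φ c a + D φ c b := by
          ext i j; fin_cases i <;> fin_cases j <;> simp [D] <;> ring
        rw [this, Matrix.add_mulVec] }
  have hginj : Function.Injective g := by
    rw [injective_iff_map_eq_zero]
    intro a ha
    by_contra hane
    apply hyne
    have hdet := D_det_ne_zero φ h3 c hc a hane
    exact Matrix.eq_zero_of_mulVec_eq_zero hdet ha
  have hgsurj : Function.Surjective g := Finite.surjective_of_injective hginj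
  obtain ⟨z, hz⟩ := htr
  obtain ⟨i0, hi0⟩ : ∃ i, x i ≠ 0 := by
    by_contra h
    push Not at h
    exact hxne (funext h)
  obtain ⟨a, ha⟩ := hgsurj (Pi.single i0 (z / x i0))
  -- the inner product of `D(a)` with `Y`
  have hsum : x 0 * g a 0 + x 1 * g a 1 + x 2 * g a 2 = z := by
    rw [ha]
    fin_cases i0 <;> simp_all [mul_div_cancel₀]
  have hexp : x 0 * g a 0 + x 1 * g a 1 + x 2 * g a 2 =
      (a 0 * Y 0 0 + φ (a 0) * Y 1 1 + φ (φ (a 0)) * Y 2 2)
      + (a 1 * Y 0 1 + φ (a 1) * Y 1 2 + φ (φ (a 1)) * (c * Y 2 0))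
      + (a 2 * Y 0 2 + φ (a 2) * (c * Y 1 0) + φ (φ (a 2)) * (c * Y 2 1)) := by
    have g0 : g a 0 = a 0 * y 0 + a 1 * y 1 + a 2 * y 2 := by
      change (D φ c a).mulVec y 0 = _
      simp [D, Matrix.mulVec, dotProduct, Fin.sum_univ_three]
    have g1 : g a 1 = c * φ (a 2) * y 0 + φ (a 0) * y 1 + φ (a 1) * y 2 := by
      change (D φ c a).mulVec y 1 = _
      simp [D, Matrix.mulVec, dotProduct, Fin.sum_univ_three]
    have g2 : g a 2 = c * φ (φ (a 1)) * y 0 + c * φ (φ (a 2)) * y 1 + φ (φ (a 0)) * y 2 := by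
      change (D φ c a).mulVec y 2 = _
      simp [D, Matrix.mulVec, dotProduct, Fin.sum_univ_three]
    rw [g0, g1, g2]
    simp only [hy]
    ring
  obtain ⟨e1, e2, e3⟩ := mem_code.1 hY
  apply hz
  rw [← hsum, hexp]
  have k1 := congrArg (fun t => a 0 * t + φ (a 0 * t) + φ (φ (a 0 * t))) e1
  have k2 := congrArg (fun t => a 1 * t + φ (a 1 * t) + φ (φ (a 1 * t))) e2
  have k3 := congrArg (fun t => a 2 * t + φ (a 2 * t) + φ (φ (a 2 * t))) e3
  simp only [map_mul, map_add, h3, mul_zero, map_zero, add_zero] at k1 k2 k3 ⊢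
  linear_combination k1 + k2 + k3

/-- A linearised polynomial of degree at most `Q ^ 2 < |K|` that vanishes on `K` is zero. -/
theorem lin_poly_zero [Finite K] (Q : ℕ) (hQ : 2 ≤ Q) (hK : Nat.card K = Q ^ 3) (α β γ : K)
    (h : ∀ x : K, α * x + β * x ^ Q + γ * x ^ (Q ^ 2) = 0) : α = 0 ∧ β = 0 ∧ γ = 0 := by
  classical
  have := Fintype.ofFinite K
  have hQ2 : Q < Q ^ 2 := by nlinarith
  have hQ3 : Q ^ 2 < Q ^ 3 := Nat.pow_lt_pow_right (by omega) (by norm_num)
  set P : Polynomial K := Polynomial.C α * Polynomial.X + Polynomial.C β * Polynomial.X ^ Q +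
    Polynomial.C γ * Polynomial.X ^ (Q ^ 2) with hP
  have hdeg : P.natDegree ≤ Q ^ 2 := by
    rw [hP]
    refine Polynomial.natDegree_add_le_of_degree_le (Polynomial.natDegree_add_le_of_degree_le ?_ ?_) ?_
    · refine (Polynomial.natDegree_C_mul_le _ _).trans ?_
      rw [Polynomial.natDegree_X]; omega
    · refine (Polynomial.natDegree_C_mul_le _ _).trans ?_
      rw [Polynomial.natDegree_X_pow]; omega
    · refine (Polynomial.natDegree_C_mul_le _ _).trans ?_
      rw [Polynomial.natDegree_X_pow]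
  have hP0 : P = 0 := by
    apply Polynomial.eq_zero_of_natDegree_lt_card_of_eval_eq_zero P (f := (id : K → K))
      Function.injective_id
    · intro x
      rw [hP]
      simpa using h x
    · rw [← Nat.card_eq_fintype_card, hK]
      omega
  have c1 := congrArg (fun R => Polynomial.coeff R 1) hP0
  have c2 := congrArg (fun R => Polynomial.coeff R Q) hP0
  have c3 := congrArg (fun R => Polynomial.coeff R (Q ^ 2)) hP0
  have n1 : (1 : ℕ) ≠ Q := by omega
  have n2 : (1 : ℕ) ≠ Q ^ 2 := by omega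
  have n3 : Q ≠ Q ^ 2 := by omega
  simp only [hP, Polynomial.coeff_add, Polynomial.coeff_C_mul, Polynomial.coeff_X,
    Polynomial.coeff_X_pow, Polynomial.coeff_zero, n1, n2, n3, n3.symm, if_true,
    if_false, mul_one, mul_zero, add_zero, zero_add] at c1 c2 c3
  exact ⟨c1, c2, c3⟩

/-- the code contains no nonzero `K`-line -/
theorem no_line [Finite K] (φ : K →+* K) (Q : ℕ) (hQ : 2 ≤ Q) (hK : Nat.card K = Q ^ 3)
    (hφ : ∀ x, φ x = x ^ Q) (c : K) (hc0 : c ≠ 0) (Y : Matrix (Fin 3) (Fin 3) K)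
    (h : ∀ r : K, r • Y ∈ code φ c) : Y = 0 := by
  have key : ∀ u v w : K, (∀ r : K, r * u + φ (φ (r * v)) + φ (r * w) = 0) →
      u = 0 ∧ v = 0 ∧ w = 0 := by
    intro u v w hr
    have h1 : ∀ x : K, u * x + w ^ Q * x ^ Q + v ^ (Q ^ 2) * x ^ (Q ^ 2) = 0 := by
      intro x
      have := hr x
      rw [hφ, hφ, hφ] at this
      rw [← pow_mul, ← sq, mul_pow, mul_pow] at this
      linear_combination this
    obtain ⟨h2, h3, h4⟩ := lin_poly_zero Q hQ hK _ _ _ h1
    refine ⟨h2, ?_, ?_⟩
    · exact pow_eq_zero_iff (by positivity) |>.1 h4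
    · exact pow_eq_zero_iff (by omega) |>.1 h3
  have k1 := key (Y 0 0) (Y 1 1) (Y 2 2) (fun r => by
    have := (mem_code.1 (h r)).1
    simpa only [Matrix.smul_apply, smul_eq_mul] using this)
  have k2 := key (Y 0 1) (Y 1 2) (c * Y 2 0) (fun r => by
    have := (mem_code.1 (h r)).2.1
    simp only [Matrix.smul_apply, smul_eq_mul] at this
    rw [← this]; ring_nf)
  have k3 := key (Y 0 2) (c * Y 1 0) (c * Y 2 1) (fun r => by
    have := (mem_code.1 (h r)).2.2
    simp only [Matrix.smul_apply, smul_eq_mul] at this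
    rw [← this]; ring_nf)
  have z20 : Y 2 0 = 0 := (mul_eq_zero.1 k2.2.2).resolve_left hc0
  have z10 : Y 1 0 = 0 := (mul_eq_zero.1 k3.2.1).resolve_left hc0
  have z21 : Y 2 1 = 0 := (mul_eq_zero.1 k3.2.2).resolve_left hc0
  ext i j
  fin_cases i <;> fin_cases j
  · exact k1.1
  · exact k2.1
  · exact k3.1
  · exact z10
  · exact k1.2.1
  · exact k2.2.1
  · exact z20
  · exact z21
  · exact k1.2.2

end construction

/-- For every prime power `Q = p ^ e` and every field `K` with `Q ^ 3` elements, there is an additive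
MRD code in `M_3(K)` with minimum distance `2 < 3` no subset of which is equivalent to the field
spread set of the cubic extension of `K`. -/
theorem result (p e : ℕ) (hp : p.Prime) (he : 0 < e) (K : Type) [Field K] [Finite K]
    (hK : Nat.card K = (p ^ e) ^ 3) :
    ∃ C : AddSubgroup (Matrix (Fin 3) (Fin 3) K),
      IsMRD (C : Set (Matrix (Fin 3) (Fin 3) K)) 2 ∧
      ∀ (L : Type) [Field L] [Algebra K L] (b : Module.Basis (Fin 3) K L)
        (S : Set (Matrix (Fin 3) (Fin 3) K)),
        CodeEquiv (fieldSpreadSet b) S → ¬ S ⊆ (C : Set (Matrix (Fin 3) (Fin 3) K)) := by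
  classical
  have := Fintype.ofFinite K
  have : Fact p.Prime := ⟨hp⟩
  have hcard : Fintype.card K = p ^ (e * 3) := by
    rw [← Nat.card_eq_fintype_card, hK, pow_mul]
  have : CharP K p := charP_of_card_eq_prime_pow hcard
  set Q := p ^ e with hQdef
  have hQ : 2 ≤ Q := by
    rw [hQdef]
    calc 2 ≤ p := hp.two_le
      _ = p ^ 1 := (pow_one p).symm
      _ ≤ p ^ e := Nat.pow_le_pow_right hp.pos he
  set φ : K →+* K := iterateFrobenius K p e with hφdef
  have hφ : ∀ x, φ x = x ^ Q := fun x => iterateFrobenius_def (R := K) p e x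
  have h3 : ∀ x, φ (φ (φ x)) = x := by
    intro x
    rw [hφ, hφ, hφ, ← pow_mul, ← pow_mul]
    have : Q * (Q * Q) = Fintype.card K := by
      rw [← Nat.card_eq_fintype_card, hK]; ring
    rw [this, FiniteField.pow_card]
  obtain ⟨c, hc⟩ : ∃ c : K, φ c ≠ c := by
    by_contra hcon
    push Not at hcon
    have := lin_poly_zero (K := K) Q hQ hK (-1) 1 0 (fun x => by
      have := hcon x
      rw [hφ] at this
      linear_combination this)
    exact one_ne_zero this.2.1
  have hc0 : c ≠ 0 := by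
    rintro rfl
    exact hc (map_zero φ)
  have htr : ∃ z : K, z + φ z + φ (φ z) ≠ 0 := by
    by_contra hcon
    push Not at hcon
    have := lin_poly_zero (K := K) Q hQ hK 1 1 1 (fun x => by
      have := hcon x
      rw [hφ, hφ, ← pow_mul, ← sq] at this
      linear_combination this)
    exact one_ne_zero this.1
  refine ⟨code φ c, ⟨⟨?_, ?_⟩, ?_⟩, ?_⟩
  · intro X hX Y hY hXY
    exact rank_ge_two φ h3 c hc htr (X - Y) ((code φ c).sub_mem hX hY) (sub_ne_zero.2 hXY)
  · refine ⟨Matrix.diagonal ![0, 1, -1], ?_, 0, (code φ c).zero_mem, ?_, ?_⟩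
    · change Matrix.diagonal ![0, 1, -1] ∈ code φ c
      rw [mem_code]
      simp [Matrix.diagonal]
    · intro h
      have := congrFun (congrFun h 1) 1
      simp [Matrix.diagonal] at this
    · rw [sub_zero, Matrix.rank_diagonal]
      have : Fintype.card {i : Fin 3 // (![0, 1, -1] : Fin 3 → K) i ≠ 0} = 2 := by
        rw [Fintype.card_subtype]
        have : (Finset.univ.filter (fun i : Fin 3 => (![0, 1, -1] : Fin 3 → K) i ≠ 0)) = {1, 2} := by
          ext i
          fin_cases i <;> simp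
        rw [this]; rfl
      exact this
  · have := card_code φ c
    rw [show Nat.card ((code φ c : Set (Matrix (Fin 3) (Fin 3) K))) = Nat.card (code φ c) from rfl, this]
  · intro L _ _ b S hS hSC
    -- every scalar multiple of some invertible matrix lies in the code
    have hline : ∃ Y : Matrix (Fin 3) (Fin 3) K, Y ≠ 0 ∧ ∀ r : K, r • Y ∈ code φ c := by
      obtain ⟨A, B, σ, h | h⟩ := hS
      · refine ⟨(A : Matrix (Fin 3) (Fin 3) K) * (B : Matrix (Fin 3) (Fin 3) K), ?_, ?_⟩
        · intro h0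
          have h1 : ((A * B : GL (Fin 3) K) : Matrix (Fin 3) (Fin 3) K) = 0 := by
            rw [Units.val_mul]; exact h0
          exact (A * B).ne_zero h1
        · intro r
          apply hSC
          rw [h]
          refine ⟨Algebra.leftMulMatrix b (algebraMap K L (σ.symm r)), ⟨_, rfl⟩, ?_⟩
          have h1 : Algebra.leftMulMatrix b (algebraMap K L (σ.symm r)) =
              Matrix.scalar (Fin 3) (σ.symm r) := by
            rw [AlgHom.commutes]; rfl
          rw [h1]
          have h2 : (Matrix.scalar (Fin 3) (σ.symm r)).map σ = Matrix.scalar (Fin 3) r := by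
            ext i j
            by_cases hij : i = j
            · subst hij; simp
            · simp [Matrix.diagonal_apply_ne _ hij]
          rw [h2]
          simp [Matrix.scalar_apply, ← Matrix.smul_one_eq_diagonal]
      · refine ⟨(A : Matrix (Fin 3) (Fin 3) K) * (B : Matrix (Fin 3) (Fin 3) K), ?_, ?_⟩
        · intro h0
          have h1 : ((A * B : GL (Fin 3) K) : Matrix (Fin 3) (Fin 3) K) = 0 := by
            rw [Units.val_mul]; exact h0
          exact (A * B).ne_zero h1
        · intro r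
          apply hSC
          rw [h]
          refine ⟨Algebra.leftMulMatrix b (algebraMap K L (σ.symm r)), ⟨_, rfl⟩, ?_⟩
          have h1 : Algebra.leftMulMatrix b (algebraMap K L (σ.symm r)) =
              Matrix.scalar (Fin 3) (σ.symm r) := by
            rw [AlgHom.commutes]; rfl
          rw [h1]
          have h2 : ((Matrix.scalar (Fin 3) (σ.symm r)).map σ)ᵀ = Matrix.scalar (Fin 3) r := by
            ext i j
            by_cases hij : i = j
            · subst hij; simp
            · simp [Matrix.diagonal_apply_ne _ (Ne.symm hij), Matrix.diagonal_apply_ne _ hij]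
          rw [h2]
          simp [Matrix.scalar_apply, ← Matrix.smul_one_eq_diagonal]
    obtain ⟨Y, hY0, hY⟩ := hline
    exact hY0 (no_line φ Q hQ hK hφ c hc0 Y hY)

end Pool.Agent.Results.MP_bf8bcd_co.NoFieldSpreadSet
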